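import Pool.Agent.H97.SHL.Targets

/-!
# Row PH4 (board shl_modules): one good narrow part
-/

set_option autoImplicit false

namespace Pool.Agent.H54.SHL

open Finset
open Pool.Agent.H97.SHL

/-- disjoint subsets of `P` meet `Z` in at most as many points as `P` -/
theorem sum_card_inter_le {X : Type} [DecidableEq X] (𝓒 : Finset (Finset X)) (P Z : Finset X)
    (hd : ∀ c ∈ 𝓒, ∀ c' ∈ 𝓒, c ≠ c' → Disjoint c c') (hs : ∀ c ∈ 𝓒, c ⊆ P) :
    ∑ c ∈ 𝓒, (((c ∩ Z).card : ℕ) : ℝ) ≤ ((P ∩ Z).card : ℝ) := by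
  have h1 : (𝓒.biUnion fun c => c ∩ Z).card = ∑ c ∈ 𝓒, (c ∩ Z).card :=
    card_biUnion (fun c hc c' hc' hne =>
      disjoint_of_subset_left inter_subset_left
        (disjoint_of_subset_right inter_subset_left (hd c hc c' hc' hne)))
  rw [← Nat.cast_sum, ← h1]
  refine Nat.cast_le.2 (card_le_card ?_)
  intro x hx
  rw [mem_biUnion] at hx
  obtain ⟨c, hc, hxc⟩ := hx
  exact mem_inter.2 ⟨hs c hc (mem_inter.1 hxc).1, (mem_inter.1 hxc).2⟩

theorem pf_PH4 (hPH2 : T_PH2) (hPH3 : T_PH3) : T_PH4 := by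
  classical
  intro X K _ _ D U Y N T₀ 𝓛 Lf dc nar gd Fam hE S A h hDag T i hT hi p hp hn hg
  obtain ⟨𝓒, hcard, hbl, hdis, hsub, hj, hmain⟩ :=
    hPH2 X K D U Y N T₀ 𝓛 Lf dc nar gd Fam hE S A h hDag T i hT hi p hp hn hg
  have hU : (1 : ℝ) ≤ U := hE.U1
  have hN : (1 : ℝ) ≤ N := hE.N1
  have hY : (0 : ℝ) ≤ Y := hE.Y0
  set Gs := gst dc nar gd S A h i T with hGs
  set Ws := wst dc nar S A with hWs
  have h1 : ∀ c ∈ 𝓒, 3 * ((gs dc nar gd c).card : ℝ) ≤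
      8 * U * (((c ∩ Gs).card : ℝ) + ((c ∩ Ws).card : ℝ) + N * (N * Y)) := by
    intro c hc
    obtain ⟨j, hjS, hcj, hjh⟩ := hj c hc
    have h2 := hPH3 X K D U Y N T₀ 𝓛 Lf dc nar gd Fam hE (A i) (hDag.mem i hi) p hp c (hbl hc)
      (A j) (hDag.mem j hjS) hcj
    have h3 : ((c ∩ gs dc nar gd (A j)).card : ℝ) ≤ ((c ∩ Gs).card : ℝ) := by
      refine Nat.cast_le.2 (card_le_card (inter_subset_inter_left ?_))
      intro x hx
      rw [hGs]
      unfold gst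
      rw [mem_biUnion]
      exact ⟨j, mem_filter.2 ⟨mem_range.2 hjS, hjh⟩, hx⟩
    have h4 : ((c ∩ ws dc nar (A j)).card : ℝ) ≤ ((c ∩ Ws).card : ℝ) := by
      refine Nat.cast_le.2 (card_le_card (inter_subset_inter_left ?_))
      intro x hx
      rw [hWs]
      unfold wst
      rw [mem_biUnion]
      exact ⟨j, mem_range.2 hjS, hx⟩
    refine h2.trans (mul_le_mul_of_nonneg_left ?_ (by linarith))
    linarith
  have hG := sum_card_inter_le 𝓒 p.1 Gs hdis hsub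
  have hW := sum_card_inter_le 𝓒 p.1 Ws hdis hsub
  have hc2 : (𝓒.card : ℝ) ≤ 2 ^ T := by exact_mod_cast hcard
  have hNNY : 0 ≤ N * (N * Y) := mul_nonneg (by linarith) (mul_nonneg (by linarith) hY)
  have h5 : 3 * ∑ c ∈ 𝓒, ((gs dc nar gd c).card : ℝ) ≤
      8 * U * (((p.1 ∩ Gs).card : ℝ) + ((p.1 ∩ Ws).card : ℝ) + 2 ^ T * (N * (N * Y))) := by
    rw [mul_sum]
    refine (sum_le_sum h1).trans ?_
    rw [← mul_sum, sum_add_distrib, sum_add_distrib, sum_const, nsmul_eq_mul]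
    refine mul_le_mul_of_nonneg_left ?_ (by linarith)
    have h6 : (𝓒.card : ℝ) * (N * (N * Y)) ≤ 2 ^ T * (N * (N * Y)) :=
      mul_le_mul_of_nonneg_right hc2 hNNY
    linarith
  set a : ℝ := ((p.1 ∩ Gs).card : ℝ) with ha
  set w : ℝ := ((p.1 ∩ Ws).card : ℝ) with hw
  set sc : ℝ := ∑ c ∈ 𝓒, ((gs dc nar gd c).card : ℝ) with hsc
  have h7 : 8 * U * (3 * sc) ≤ 8 * U * (8 * U * (a + w + 2 ^ T * (N * (N * Y)))) :=
    mul_le_mul_of_nonneg_left h5 (by linarith)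
  have h2T : (0 : ℝ) < 2 ^ T := by positivity
  have h8 : 24 * U * (2 ^ T * Y) ≤ 64 * U ^ 2 * (2 ^ T * (N * (N * Y))) := by
    have e1 : (2 : ℝ) ^ T * Y ≤ 2 ^ T * (N * (N * Y)) := by
      refine mul_le_mul_of_nonneg_left ?_ h2T.le
      have e2 : Y ≤ N * Y := by nlinarith
      have e3 : N * Y ≤ N * (N * Y) := mul_le_mul_of_nonneg_left e2 (by linarith)
      linarith
    have e4 : 24 * U ≤ 64 * U ^ 2 := by nlinarith
    have e5 : 0 ≤ (2 : ℝ) ^ T * Y := mul_nonneg h2T.le hY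
    calc 24 * U * (2 ^ T * Y) ≤ 64 * U ^ 2 * (2 ^ T * Y) := mul_le_mul_of_nonneg_right e4 e5
      _ ≤ 64 * U ^ 2 * (2 ^ T * (N * (N * Y))) :=
        mul_le_mul_of_nonneg_left e1 (by positivity)
  have h9 : 3 * (3 * (p.1.card : ℝ)) ≤ 3 * (8 * U * (sc + 2 ^ T * Y)) :=
    mul_le_mul_of_nonneg_left hmain (by norm_num)
  have e6 : 3 * (8 * U * (sc + 2 ^ T * Y)) = 8 * U * (3 * sc) + 24 * U * (2 ^ T * Y) := by ring
  have e7 : 8 * U * (8 * U * (a + w + 2 ^ T * (N * (N * Y)))) +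
      64 * U ^ 2 * (2 ^ T * (N * (N * Y))) =
      64 * U ^ 2 * (a + w + 2 * 2 ^ T * N ^ 2 * Y) := by ring
  rw [← e7]
  linarith

end Pool.Agent.H54.SHL
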