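import Pool.Agent.H97.SHL.Targets

/-!
# Row SUM (board shl_modules): the mass of a set
-/

set_option autoImplicit false

namespace Pool.Agent.H54.SHL

open Finset
open Pool.Agent.H97.SHL

theorem pf_SUM : T_SUM := by
  classical
  intro X K _ _ D U Y N T₀ 𝓛 Lf dc nar gd Fam hE Q hQ
  have hdis : ∀ p ∈ dc Q, ∀ p' ∈ dc Q, p ≠ p' → Disjoint p.1 p'.1 := hE.dis Q
  have hcov : (dc Q).biUnion Prod.fst = Q := by
    ext x
    rw [mem_biUnion]
    constructor
    · rintro ⟨p, hp, hx⟩
      exact hE.sub Q p hp hx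
    · intro hx
      exact hE.cov Q x hx
  have hgsQ : gs dc nar gd Q ⊆ Q := by
    intro x hx
    unfold gs at hx
    rw [mem_biUnion] at hx
    obtain ⟨p, hp, hxp⟩ := hx
    exact hE.sub Q p (mem_filter.1 hp).1 hxp
  have hU0 : (0 : ℝ) ≤ U := by linarith [hE.U1]
  refine ⟨?_, ?_, ?_, hgsQ⟩
  · -- the mass
    have h1 : ∑ x ∈ Q, D x = ∑ p ∈ dc Q, ∑ x ∈ p.1, D x := by
      conv_lhs => rw [← hcov]
      exact sum_biUnion (fun p hp p' hp' hne => hdis p hp p' hp' hne)
    have h2 : ((gs dc nar gd Q).card : ℝ) =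
        ∑ p ∈ dc Q, if nar p ∧ gd p then (p.1.card : ℝ) else 0 := by
      rw [← sum_filter]
      unfold gs
      rw [card_biUnion (fun p hp p' hp' hne => hdis p (mem_filter.1 hp).1 p' (mem_filter.1 hp').1 hne),
        Nat.cast_sum]
    have h3 : ((ws dc nar Q).card : ℝ) =
        ∑ p ∈ dc Q, if ¬ nar p then (p.1.card : ℝ) else 0 := by
      rw [← sum_filter]
      unfold ws
      rw [card_biUnion (fun p hp p' hp' hne => hdis p (mem_filter.1 hp).1 p' (mem_filter.1 hp').1 hne),
        Nat.cast_sum]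
    have h4 : (Q.card : ℝ) = ∑ p ∈ dc Q, (p.1.card : ℝ) := by
      conv_lhs => rw [← hcov]
      rw [card_biUnion (fun p hp p' hp' hne => hdis p hp p' hp' hne), Nat.cast_sum]
    have h5 : ∀ p ∈ dc Q, 8 * ∑ x ∈ p.1, D x ≤
        8 * U * (if nar p ∧ gd p then (p.1.card : ℝ) else 0) + (p.1.card : ℝ) +
          8 * U * (if ¬ nar p then (p.1.card : ℝ) else 0) := by
      intro p hp
      have hc : (0 : ℝ) ≤ (p.1.card : ℝ) := Nat.cast_nonneg _
      have hD : ∑ x ∈ p.1, D x ≤ U * p.1.card := by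
        refine (sum_le_sum (fun x _ => hE.bnd x)).trans (le_of_eq ?_)
        rw [sum_const, nsmul_eq_mul, mul_comm]
      by_cases hn : nar p
      · by_cases hg : gd p
        · rw [if_pos ⟨hn, hg⟩, if_neg (not_not.2 hn)]
          linarith
        · rw [if_neg (fun h => hg h.2), if_neg (not_not.2 hn)]
          have := hE.hi Q hQ p hp hn hg
          linarith
      · rw [if_neg (fun h => hn h.1), if_pos hn]
        linarith
    have h6 : 8 * ∑ x ∈ Q, D x ≤ 8 * U * ((gs dc nar gd Q).card : ℝ) + (Q.card : ℝ) +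
        8 * U * ((ws dc nar Q).card : ℝ) := by
      rw [h1, mul_sum, h2, h3, h4, mul_sum, mul_sum, ← sum_add_distrib, ← sum_add_distrib]
      exact sum_le_sum h5
    have h7 : 8 * U * ((ws dc nar Q).card : ℝ) ≤ 8 * U * Y :=
      mul_le_mul_of_nonneg_left (hE.wid Q) (by linarith)
    linarith
  · intro hL
    unfold gs
    rw [filter_eq_empty_iff.2 (fun p hp h => hE.lf Q hL p hp h.2), biUnion_empty]
  · have h8 : (dc Q).biUnion (fun p => p.1 ∩ gs dc nar gd Q) = gs dc nar gd Q := by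
      ext x
      rw [mem_biUnion]
      constructor
      · rintro ⟨p, _, hx⟩
        exact (mem_inter.1 hx).2
      · intro hx
        obtain ⟨p, hp, hxp⟩ := hE.cov Q x (hgsQ hx)
        exact ⟨p, hp, mem_inter.2 ⟨hxp, hx⟩⟩
    conv_lhs => rw [← h8]
    exact card_biUnion (fun p hp p' hp' hne =>
      disjoint_of_subset_left inter_subset_left
        (disjoint_of_subset_right inter_subset_left (hdis p hp p' hp' hne)))

end Pool.Agent.H54.SHL
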